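import Pool.Agent.H41.HYP.S3
import Pool.Agent.H94.HYP.GDT

/-!
# HYP, LATT, part 1: Gram matrices under ring homomorphisms and squares
-/

set_option autoImplicit false

namespace Pool.HYP

open Polynomial Matrix Pool.AVS

section Gram

variable {R S : Type} [CommRing R] [CommRing S]

theorem tau_map [Nontrivial S] (φ : R →+* S) {f : R[X]} (hf : f.Monic) (p : R[X]) :
    tau (f.map φ) (p.map φ) = φ (tau f p) := by
  unfold tau
  rw [← Polynomial.map_modByMonic φ hf, hf.natDegree_map, coeff_map]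

theorem gr_map [Nontrivial S] (φ : R →+* S) {f : R[X]} (hf : f.Monic) (k n : ℕ) (h : R[X]) :
    (gr k n f h).map φ = gr k n (f.map φ) (h.map φ) := by
  ext i j
  simp only [gr, Matrix.map_apply, Matrix.of_apply]
  rw [← tau_map φ hf, Polynomial.map_mul, Polynomial.map_pow, Polynomial.map_X]

theorem mulM_map (φ : R →+* S) {f : R[X]} (hf : f.Monic) (n : ℕ) (h : R[X]) :
    (mulM n f h).map φ = mulM n (f.map φ) (h.map φ) := by
  ext i j
  simp only [mulM, Matrix.map_apply, Matrix.of_apply]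
  rw [← Polynomial.coeff_map, Polynomial.map_modByMonic φ hf, Polynomial.map_mul,
    Polynomial.map_pow, Polynomial.map_X]

theorem gr_symm (k n : ℕ) (f h : R[X]) : (gr k n f h)ᵀ = gr k n f h := by
  ext i j
  simp only [gr, Matrix.transpose_apply, Matrix.of_apply]
  rw [add_comm (j : ℕ) (i : ℕ)]

theorem gr_congr {f : R[X]} (hf : f.Monic) (k n : ℕ) {h h' : R[X]} (hh : f ∣ h - h') :
    gr k n f h = gr k n f h' := by
  ext i j
  simp only [gr, Matrix.of_apply]
  apply tau_congr hf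
  rw [← mul_sub]
  exact hh.mul_left _

theorem gr_C_mul (k n : ℕ) (f : R[X]) (c : R) (h : R[X]) :
    gr k n f (C c * h) = c • gr k n f h := by
  ext i j
  simp only [gr, Matrix.of_apply, Matrix.smul_apply, smul_eq_mul]
  rw [← tau_C_mul]
  congr 1
  ring

theorem gr_mul_mulM {f : R[X]} (hf : f.Monic) [Nontrivial R] (m : ℕ) (h q : R[X]) :
    gr m f.natDegree f (h * q) = gr m f.natDegree f h * mulM f.natDegree f q := by
  ext i j
  rw [Matrix.mul_apply]
  simp only [gr, mulM, Matrix.of_apply]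
  have hn : 0 < f.natDegree := i.pos
  have e1 : tau f (X ^ ((i : ℕ) + j + m) * (h * q)) =
      tau f ((X ^ ((i : ℕ) + m) * h) * ((q * X ^ (j : ℕ)) %ₘ f)) := by
    apply tau_congr hf
    have h1 : X ^ ((i : ℕ) + j + m) * (h * q) -
        (X ^ ((i : ℕ) + m) * h) * ((q * X ^ (j : ℕ)) %ₘ f) =
        (X ^ ((i : ℕ) + m) * h) * (q * X ^ (j : ℕ) - (q * X ^ (j : ℕ)) %ₘ f) := by ring
    rw [h1]
    apply Dvd.dvd.mul_left
    have h2 := Polynomial.modByMonic_add_div (q * X ^ (j : ℕ)) f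
    refine ⟨(q * X ^ (j : ℕ)) /ₘ f, ?_⟩
    linear_combination -h2
  have h3 : ((q * X ^ (j : ℕ)) %ₘ f).natDegree < f.natDegree :=
    Polynomial.natDegree_modByMonic_lt _ hf (by rintro rfl; simp at hn)
  rw [e1]
  conv_lhs => rw [Polynomial.as_sum_range' _ _ h3]
  rw [Finset.mul_sum, tau_sum, ← Fin.sum_univ_eq_sum_range
    (fun k => tau f ((X ^ ((i : ℕ) + m) * h) *
      monomial k (((q * X ^ (j : ℕ)) %ₘ f).coeff k)))]
  refine Finset.sum_congr rfl fun k _ => ?_
  rw [← C_mul_X_pow_eq_monomial]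
  have h4 : (X ^ ((i : ℕ) + m) * h) * (C (((q * X ^ (j : ℕ)) %ₘ f).coeff k) * X ^ (k : ℕ)) =
      C (((q * X ^ (j : ℕ)) %ₘ f).coeff k) * (X ^ ((i : ℕ) + k + m) * h) := by ring
  rw [h4, tau_C_mul, mul_comm]

theorem gr_sq {f : R[X]} (hf : f.Monic) [Nontrivial R] (m : ℕ) (h q : R[X]) :
    gr m f.natDegree f (h * q ^ 2) =
      (mulM f.natDegree f q)ᵀ * gr m f.natDegree f h * mulM f.natDegree f q := by
  have e1 : gr m f.natDegree f (h * q) = (mulM f.natDegree f q)ᵀ * gr m f.natDegree f h := by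
    rw [← gr_symm, gr_mul_mulM hf, Matrix.transpose_mul, gr_symm]
  rw [pow_two, ← mul_assoc, gr_mul_mulM hf, e1]

theorem mulM_det_ne {f : R[X]} (hf : f.Monic) {q : R[X]} (hq : IsCoprime q f) :
    IsUnit (mulM f.natDegree f q).det := by
  rw [mulM_det hf]
  apply IsUnit.map
  obtain ⟨a, b, hab⟩ := hq
  refine IsUnit.of_mul_eq_one (AdjoinRoot.mk f a) ?_
  have h1 := congrArg (AdjoinRoot.mk f) hab
  rw [map_add, map_mul, map_mul, AdjoinRoot.mk_self, mul_zero, add_zero, map_one] at h1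
  rw [mul_comm]
  exact h1

theorem gr_det_unit {f : R[X]} (hf : f.Monic) [Nontrivial R] {q : R[X]} (hq : IsCoprime q f) :
    IsUnit (gr 0 f.natDegree f q).det := by
  rw [gr_eq_mul hf, Matrix.det_mul, gr_one_det hf]
  exact IsUnit.mul ((isUnit_one.neg).pow _) (mulM_det_ne hf hq)

end Gram

end Pool.HYP
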