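import Pool.Agent.H93.HYP.LattA

/-!
# HYP, LATT, part 2: one prime
-/

set_option autoImplicit false

namespace Pool.HYP

open Polynomial Matrix Pool.AVS

variable {F : Type} [Field F]

theorem rf_inj {a b : F[X]} (h : rf a = rf b) : a = b :=
  IsFractionRing.injective F[X] (RatFunc F) h

theorem rf_mul (a b : F[X]) : rf (a * b) = rf a * rf b := map_mul _ a b

theorem rf_add (a b : F[X]) : rf (a + b) = rf a + rf b := map_add _ a b

theorem rf_zero : rf (0 : F[X]) = 0 := map_zero _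

theorem rf_one : rf (1 : F[X]) = 1 := map_one _

theorem rf_pow (a : F[X]) (k : ℕ) : rf (a ^ k) = rf a ^ k := map_pow _ a k

theorem rf_ne {a : F[X]} (ha : a ≠ 0) : rf a ≠ 0 := fun h => ha (rf_inj (h.trans rf_zero.symm))

theorem mK_inj {n : ℕ} {A B : Matrix (Fin n) (Fin n) F[X]} (h : mK A = mK B) : A = B := by
  ext1 i j
  exact rf_inj (congrFun (congrFun h i) j)

theorem ip_iff (P : F[X]) (_hP : Irreducible P) (x : RatFunc F) :
    x ∈ IP P ↔ ∃ m a : F[X], ¬ P ∣ m ∧ rf m * x = rf a := by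
  constructor
  · intro hx
    refine ⟨x.denom, x.num, hx, ?_⟩
    have h1 := RatFunc.num_div_denom x
    have h2 : rf x.denom ≠ 0 := rf_ne (RatFunc.denom_ne_zero x)
    rw [div_eq_iff h2] at h1
    rw [mul_comm]
    exact h1.symm
  · rintro ⟨m, a, hm, hx⟩ hd
    have hm0 : m ≠ 0 := by
      rintro rfl
      exact hm (dvd_zero P)
    have h1 : x = rf a / rf m := by
      rw [eq_div_iff (rf_ne hm0), mul_comm, hx]
    have h2 : x.denom ∣ m := by
      rw [h1]
      exact RatFunc.denom_div_dvd a m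
    exact hm (hd.trans h2)

theorem ip_mul {P : F[X]} (hP : Irreducible P) {x y : RatFunc F} (hx : x ∈ IP P)
    (hy : y ∈ IP P) : x * y ∈ IP P := by
  rw [ip_iff P hP] at *
  obtain ⟨m, a, hm, h1⟩ := hx
  obtain ⟨m', a', hm', h1'⟩ := hy
  refine ⟨m * m', a * a', fun h => ?_, ?_⟩
  · rcases (hP.prime).dvd_or_dvd h with h | h
    · exact hm h
    · exact hm' h
  · rw [rf_mul, rf_mul, ← h1, ← h1']
    ring

theorem ip_add {P : F[X]} (hP : Irreducible P) {x y : RatFunc F} (hx : x ∈ IP P)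
    (hy : y ∈ IP P) : x + y ∈ IP P := by
  rw [ip_iff P hP] at *
  obtain ⟨m, a, hm, h1⟩ := hx
  obtain ⟨m', a', hm', h1'⟩ := hy
  refine ⟨m * m', m' * a + m * a', fun h => ?_, ?_⟩
  · rcases (hP.prime).dvd_or_dvd h with h | h
    · exact hm h
    · exact hm' h
  · rw [rf_mul, rf_add, rf_mul, rf_mul, ← h1, ← h1']
    ring

theorem ip_rf {P : F[X]} (hP : Irreducible P) (a : F[X]) : rf a ∈ IP P := by
  rw [ip_iff P hP]
  refine ⟨1, a, fun h => hP.not_isUnit (isUnit_of_dvd_one h), by simp⟩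

theorem ip_sum {P : F[X]} (hP : Irreducible P) {ι : Type} (s : Finset ι) (x : ι → RatFunc F)
    (h : ∀ i ∈ s, x i ∈ IP P) : ∑ i ∈ s, x i ∈ IP P := by
  classical
  induction s using Finset.induction_on with
  | empty =>
    rw [Finset.sum_empty]
    have := ip_rf hP (0 : F[X])
    rwa [rf_zero] at this
  | insert a s ha ih =>
    rw [Finset.sum_insert ha]
    exact ip_add hP (h a (Finset.mem_insert_self a s))
      (ih fun i hi => h i (Finset.mem_insert_of_mem hi))

theorem ip_pow {P : F[X]} (hP : Irreducible P) {x : RatFunc F} (hx : x ∈ IP P) (k : ℕ) :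
    x ^ k ∈ IP P := by
  induction k with
  | zero =>
    rw [pow_zero]
    have := ip_rf hP (1 : F[X])
    rwa [rf_one] at this
  | succ k ih =>
    rw [pow_succ]
    exact ip_mul hP ih hx

theorem ip_inv {P : F[X]} (hP : Irreducible P) {m : F[X]} (hm : ¬ P ∣ m) :
    (rf m)⁻¹ ∈ IP P := by
  rw [ip_iff P hP]
  refine ⟨m, 1, hm, ?_⟩
  rw [rf_one]
  refine mul_inv_cancel₀ (rf_ne fun h => hm ?_)
  rw [h]
  exact dvd_zero P

theorem min_mul {P : F[X]} (hP : Irreducible P) {n : ℕ} {A B : Matrix (Fin n) (Fin n) (RatFunc F)}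
    (hA : MIn (IP P) A) (hB : MIn (IP P) B) : MIn (IP P) (A * B) := by
  intro i j
  rw [Matrix.mul_apply]
  exact ip_sum hP _ _ fun k _ => ip_mul hP (hA i k) (hB k j)

/-- A rational function regular everywhere is a polynomial. -/
theorem ip_all {x : RatFunc F} (h : ∀ P : F[X], P.Monic → Irreducible P → x ∈ IP P) :
    ∃ a : F[X], x = rf a := by
  have h1 : IsUnit x.denom := by
    by_contra hu
    obtain ⟨P, hm, hP, hd⟩ := Polynomial.exists_monic_irreducible_factor x.denom hu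
    exact h P hm hP hd
  have h2 : x.denom = 1 := (RatFunc.monic_denom x).eq_one_of_isUnit h1
  refine ⟨x.num, ?_⟩
  have h3 := RatFunc.num_div_denom x
  rw [h2, map_one, div_one] at h3
  exact h3.symm

theorem unit_all {x : F[X]} (h : ∀ P : F[X], P.Monic → Irreducible P → ¬ P ∣ x) : IsUnit x := by
  by_contra hu
  obtain ⟨P, hm, hP, hd⟩ := Polynomial.exists_monic_irreducible_factor x hu
  exact h P hm hP hd

/-- Common denominators of finitely many elements. -/
theorem den_fin {P : F[X]} (hP : Irreducible P) {ι : Type} [Fintype ι] (x : ι → RatFunc F)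
    (h : ∀ i, x i ∈ IP P) : ∃ (m : F[X]) (a : ι → F[X]), ¬ P ∣ m ∧ ∀ i, rf m * x i = rf (a i) := by
  classical
  have h1 : ∀ i, ∃ m a : F[X], ¬ P ∣ m ∧ rf m * x i = rf a := fun i => (ip_iff P hP (x i)).1 (h i)
  choose m a hm ha using h1
  refine ⟨∏ i, m i, fun i => (∏ k ∈ Finset.univ.erase i, m k) * a i, ?_, ?_⟩
  · intro hd
    obtain ⟨i, -, hi⟩ := (hP.prime).exists_mem_finset_dvd hd
    exact hm i hi
  · intro i
    rw [← Finset.prod_erase_mul _ _ (Finset.mem_univ i), rf_mul, rf_mul, ← ha i]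
    ring

theorem den_mat {P : F[X]} (hP : Irreducible P) {n : ℕ} {κ : Matrix (Fin n) (Fin n) (RatFunc F)}
    (h : MIn (IP P) κ) : ∃ (m : F[X]) (κ₁ : Matrix (Fin n) (Fin n) F[X]), ¬ P ∣ m ∧
      rf m • κ = mK κ₁ := by
  obtain ⟨m, a, hm, ha⟩ := den_fin hP (fun i : Fin n × Fin n => κ i.1 i.2) fun i => h i.1 i.2
  refine ⟨m, Matrix.of fun i j => a (i, j), hm, ?_⟩
  ext1 i j
  exact ha (i, j)

theorem mK_gr {f : F[X][X]} (hf : f.Monic) (k n : ℕ) (h : F[X][X]) :
    mK (gr k n f h) = gr k n (fK f) (fK h) := gr_map _ hf k n h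

/-- One prime. -/
theorem loc_one {P : F[X]} (hP : Irreducible P) {n : ℕ} {f p : F[X][X]} (hf : f.Monic)
    (hn : f.natDegree = n) (hp : UnP P f p) {κ : Matrix (Fin n) (Fin n) (RatFunc F)}
    (hκ : GIn (IP P) κ) {G S : Matrix (Fin n) (Fin n) F[X]}
    (hG : κᵀ * gr 0 n (fK f) (fK p) * κ = mK G) (hS : κᵀ * gr 1 n (fK f) (fK p) * κ = mK S) :
    ¬ P ∣ G.det ∧ ((∃ q c d : F[X][X], p = q ^ 2 + f * c + C P * d) → StdP n P f G S) := by
  have : Fact (Irreducible P) := ⟨hP⟩
  obtain ⟨hκ1, hκ0, -, hκ2⟩ := hκ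
  obtain ⟨m, κ₁, hm, hmκ⟩ := den_mat hP hκ1
  obtain ⟨φ, hφ⟩ : ∃ φ : F[X] →+* AdjoinRoot P, φ = AdjoinRoot.mk P := ⟨_, rfl⟩
  have hφ0 : ∀ a : F[X], φ a = 0 ↔ P ∣ a := fun a => by rw [hφ, AdjoinRoot.mk_eq_zero]
  have hm0 : φ m ≠ 0 := fun h => hm ((hφ0 m).1 h)
  have hrf : ∀ k (T : Matrix (Fin n) (Fin n) F[X]), κᵀ * gr k n (fK f) (fK p) * κ = mK T →
      m ^ 2 • T = κ₁ᵀ * gr k n f p * κ₁ := by
    intro k T hT
    apply mK_inj
    have e1 : mK (κ₁ᵀ * gr k n f p * κ₁) = (mK κ₁)ᵀ * gr k n (fK f) (fK p) * mK κ₁ := by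
      unfold mK
      rw [Matrix.map_mul, Matrix.map_mul, Matrix.transpose_map, gr_map _ hf]
    rw [e1, ← hmκ, Matrix.transpose_smul, Matrix.smul_mul, Matrix.smul_mul, Matrix.mul_smul,
      hT, smul_smul]
    ext i j
    simp only [Matrix.map_apply, Matrix.smul_apply, smul_eq_mul, map_mul, map_pow]
    ring
  -- over the residue field
  have hfm : (f.map φ).Monic := hf.map φ
  have hnm : (f.map φ).natDegree = n := by rw [hf.natDegree_map, hn]
  have hpc : IsCoprime (p.map φ) (f.map φ) := by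
    obtain ⟨a, b, c, habc⟩ := hp
    refine ⟨a.map φ, b.map φ, ?_⟩
    have h1 := congrArg (Polynomial.map φ) habc
    have h2 : φ P = 0 := (hφ0 P).2 dvd_rfl
    rw [Polynomial.map_add, Polynomial.map_add, Polynomial.map_mul, Polynomial.map_mul,
      Polynomial.map_mul, Polynomial.map_C, h2, C_0, zero_mul, add_zero, Polynomial.map_one] at h1
    exact h1
  have hrk : ∀ k (T : Matrix (Fin n) (Fin n) F[X]), κᵀ * gr k n (fK f) (fK p) * κ = mK T →
      (φ m) ^ 2 • T.map φ = (κ₁.map φ)ᵀ * gr k n (f.map φ) (p.map φ) * κ₁.map φ := by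
    intro k T hT
    have h1 := congrArg (fun M : Matrix (Fin n) (Fin n) F[X] => M.map φ) (hrf k T hT)
    simp only [Matrix.map_mul, gr_map _ hf] at h1
    rw [← Matrix.transpose_map, ← h1]
    ext i j
    simp only [Matrix.map_apply, Matrix.smul_apply, smul_eq_mul, map_mul, map_pow]
  have hdetκ : (κ₁.map φ).det ≠ 0 := by
    have h1 : (κ₁.map φ).det = φ κ₁.det := by
      rw [RingHom.map_det]
      rfl
    rw [h1, Ne, hφ0]
    intro hd
    obtain ⟨m2, u, hm2, hu⟩ := (ip_iff P hP _).1 hκ2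
    have h2 : rf κ₁.det = rf m ^ n * κ.det := by
      have h3 := congrArg Matrix.det hmκ
      rw [Matrix.det_smul, Fintype.card_fin] at h3
      rw [h3]
      show (algebraMap F[X] (RatFunc F)) κ₁.det = _
      rw [RingHom.map_det]
      rfl
    have h4 : κ₁.det * u = m ^ n * m2 := by
      apply rf_inj
      rw [rf_mul, h2, ← hu, rf_mul, rf_pow]
      field_simp
    have h5 : P ∣ m ^ n * m2 := by
      rw [← h4]
      exact hd.mul_right u
    rcases hP.prime.dvd_or_dvd h5 with h | h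
    · exact hm (hP.prime.dvd_of_dvd_pow h)
    · exact hm2 h
  have hdet : (G.map φ).det ≠ 0 := by
    have h1 := congrArg Matrix.det (hrk 0 G hG)
    rw [Matrix.det_smul, Matrix.det_mul, Matrix.det_mul, Matrix.det_transpose] at h1
    intro h0
    rw [h0, mul_zero] at h1
    have h2 : (gr 0 n (f.map φ) (p.map φ)).det ≠ 0 := by
      have h3 := gr_det_unit hfm hpc
      rw [hnm] at h3
      exact h3.ne_zero
    exact (mul_ne_zero (mul_ne_zero hdetκ h2) hdetκ) h1.symm
  refine ⟨?_, ?_⟩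
  · intro hd
    apply hdet
    rw [← (hφ0 _).2 hd, RingHom.map_det]
    rfl
  · rintro ⟨q, c, d, hq⟩
    obtain ⟨m', hm'⟩ := AdjoinRoot.mk_surjective (g := P) ((φ m)⁻¹)
    rw [← hφ] at hm'
    have hpq : p.map φ = (q.map φ) ^ 2 + (f.map φ) * (c.map φ) := by
      have h2 : φ P = 0 := (hφ0 P).2 dvd_rfl
      rw [hq, Polynomial.map_add, Polynomial.map_add, Polynomial.map_mul, Polynomial.map_mul,
        Polynomial.map_C, h2, C_0, zero_mul, add_zero, Polynomial.map_pow]
    have hqc : IsCoprime (q.map φ) (f.map φ) := by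
      have h1 : IsCoprime ((q.map φ) ^ 2) (f.map φ) := by
        rw [hpq] at hpc
        exact IsCoprime.of_add_mul_left_left hpc
      exact (IsCoprime.pow_left_iff (by norm_num)).1 h1
    have hgr : ∀ k, gr k n (f.map φ) (p.map φ) =
        (mulM n (f.map φ) (q.map φ))ᵀ * gr k n (f.map φ) 1 * mulM n (f.map φ) (q.map φ) := by
      intro k
      have h1 : gr k n (f.map φ) (p.map φ) = gr k n (f.map φ) (1 * (q.map φ) ^ 2) := by
        apply gr_congr hfm
        rw [hpq]
        exact ⟨c.map φ, by ring⟩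
      rw [h1]
      have h2 := gr_sq hfm k 1 (q.map φ)
      rw [hnm] at h2
      exact h2
    have hmap : ((mulM n f q) * (m' • κ₁)).map φ =
        (φ m)⁻¹ • (mulM n (f.map φ) (q.map φ) * κ₁.map φ) := by
      rw [Matrix.map_mul, mulM_map φ hf, ← Matrix.mul_smul, ← hm']
      congr 1
      ext i j
      simp only [Matrix.map_apply, Matrix.smul_apply, smul_eq_mul, map_mul]
    have hmain : ∀ k (T : Matrix (Fin n) (Fin n) F[X]),
        κᵀ * gr k n (fK f) (fK p) * κ = mK T → ∀ i j,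
        P ∣ (T - ((mulM n f q) * (m' • κ₁))ᵀ * gr k n f 1 * ((mulM n f q) * (m' • κ₁))) i j := by
      intro k T hT i j
      rw [← hφ0, Matrix.sub_apply, map_sub, sub_eq_zero]
      have h1 : (((mulM n f q) * (m' • κ₁))ᵀ * gr k n f 1 * ((mulM n f q) * (m' • κ₁))).map φ =
          T.map φ := by
        rw [Matrix.map_mul, Matrix.map_mul, Matrix.transpose_map, hmap, gr_map _ hf,
          Polynomial.map_one, Matrix.transpose_smul, Matrix.smul_mul, Matrix.smul_mul,
          Matrix.mul_smul, smul_smul, Matrix.transpose_mul]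
        have h2 : (κ₁.map φ)ᵀ * (mulM n (f.map φ) (q.map φ))ᵀ * gr k n (f.map φ) 1 *
            (mulM n (f.map φ) (q.map φ) * κ₁.map φ) =
            (κ₁.map φ)ᵀ * gr k n (f.map φ) (p.map φ) * κ₁.map φ := by
          rw [hgr k]
          simp only [Matrix.mul_assoc]
        rw [h2, ← hrk k T hT, smul_smul]
        have h3 : (φ m)⁻¹ * (φ m)⁻¹ * (φ m) ^ 2 = 1 := by
          field_simp
        rw [h3, one_smul]
      exact (congrFun (congrFun h1 i) j).symm
    refine ⟨(mulM n f q) * (m' • κ₁), ?_, hmain 0 G hG, hmain 1 S hS⟩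
    rw [← hφ0, RingHom.map_det]
    show ¬ (((mulM n f q) * (m' • κ₁)).map φ).det = 0
    rw [hmap, Matrix.det_smul, Matrix.det_mul]
    have h4 : (mulM n (f.map φ) (q.map φ)).det ≠ 0 := by
      have h5 := mulM_det_ne hfm hqc
      rw [hnm] at h5
      exact h5.ne_zero
    exact mul_ne_zero (pow_ne_zero _ (inv_ne_zero hm0)) (mul_ne_zero h4 hdetκ)

end Pool.HYP
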